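import Mathlib
import Pool.Agent.H55.FreeV3
import Pool.Agent.H55.FreeV4

namespace Pool.Agent.Results.MP_aab88c_gt.ClosedSub

open Pool.Agent.H55.FreeV TopologicalSpace Topology Set

/-- For a closed subset `Y` of a metrizable space `X`, the free topological vector space `V(Y)` is
topologically isomorphic to a vector subspace of `V(X)` (through the canonical map). -/
theorem result (X : Type) [TopologicalSpace X] [MetrizableSpace X] (Y : Set X) (hY : IsClosed Y)
    (VX : Type) [AddCommGroup VX] [Module ℝ VX] [TopologicalSpace VX] [IsTopologicalAddGroup VX]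
    [ContinuousSMul ℝ VX] [T2Space VX] (iX : X → VX) (hiX : IsFreeTVS iX)
    (VY : Type) [AddCommGroup VY] [Module ℝ VY] [TopologicalSpace VY] [IsTopologicalAddGroup VY]
    [ContinuousSMul ℝ VY] [T2Space VY] (iY : Y → VY) (hiY : IsFreeTVS iY) :
    ∃ T : VY →ₗ[ℝ] VX, IsEmbedding T ∧ ∀ y : Y, T (iY y) = iX y := by
  let _ := metrizableSpaceMetric X
  obtain ⟨T, hT, _⟩ := hiY.univ VX (fun y => iX y) (hiX.cont.comp continuous_subtype_val)
  have hT' : ∀ y : Y, T (iY y) = iX y := fun y => (congrFun hT y).symm
  refine ⟨T.toLinearMap, ?_, hT'⟩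
  rcases Y.eq_empty_or_nonempty with rfl | hne
  · have h0 : ∀ v : VY, v = 0 := fun v => by
      have : v ∈ Submodule.span ℝ (range iY) := by rw [hiY.span_top]; trivial
      rwa [range_eq_empty, Submodule.span_empty, Submodule.mem_bot] at this
    have : Subsingleton VY := ⟨fun a b => by rw [h0 a, h0 b]⟩
    exact IsEmbedding.of_subsingleton _
  · obtain ⟨F, hF, hFy⟩ := exists_ext hY hne iY hiY.cont
    obtain ⟨G, hG, _⟩ := hiX.univ (SeparationQuotient (HM VY)) (fun x => SeparationQuotient.mk (F x))
      (SeparationQuotient.continuous_mk.comp hF)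
    have key : ∀ v, G (T v) = SeparationQuotient.mk (cst v) := by
      intro v
      have hv : v ∈ Submodule.span ℝ (range iY) := by rw [hiY.span_top]; trivial
      induction hv using Submodule.span_induction with
      | mem _ h =>
        obtain ⟨y, rfl⟩ := h
        rw [hT', ← hFy]
        exact (congrFun hG y).symm
      | zero => simp
      | add a b _ _ ha hb => simp only [map_add, ha, hb, SeparationQuotient.mk_add]
      | smul c a _ ha => simp only [map_smul, ha, SeparationQuotient.mk_smul]
    have h1 : IsInducing (G ∘ T) := by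
      have : G ∘ T = SeparationQuotient.mk ∘ cst := funext key
      rw [this]
      exact SeparationQuotient.isInducing_mk.comp cst_inducing
    exact (IsInducing.of_comp T.continuous G.continuous h1).isEmbedding

end Pool.Agent.Results.MP_aab88c_gt.ClosedSub
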